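import Pool.Agent.Helper68.QC.St1

namespace Pool.Agent.Helper60.QC

open Pool.Agent.Helper68.QC
open MeasureTheory Set Filter Topology Complex
open scoped ContDiff ComplexConjugate ENNReal NNReal Real

theorem pPBL : Pool.Agent.Helper68.QC.StPBL := by
  intro V M f g hV hf hM hlim t₀ ht₀
  obtain ⟨R, hR, hRV⟩ := Metric.nhds_basis_closedBall.mem_iff.1 (hV.mem_nhds ht₀)
  have hsph : ∀ θ, circleMap t₀ R θ ∈ V := fun θ =>
    hRV (Metric.sphere_subset_closedBall (circleMap_mem_sphere _ hR.le θ))
  have hcont : ∀ n, Continuous (fun θ => f n (circleMap t₀ R θ)) := fun n =>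
    (hf n).continuousOn.comp_continuous (continuous_circleMap _ _) hsph
  have hgM : ∀ t ∈ V, ‖g t‖ ≤ M := fun t ht =>
    le_of_tendsto (hlim t ht).norm (Eventually.of_forall fun n => hM n t ht)
  have hgmeas : AEStronglyMeasurable (fun θ => g (circleMap t₀ R θ)) volume :=
    aestronglyMeasurable_of_tendsto_ae atTop (fun n => (hcont n).aestronglyMeasurable)
      (ae_of_all _ fun θ => hlim _ (hsph θ))
  have hint : CircleIntegrable g t₀ R := by
    rw [CircleIntegrable, intervalIntegrable_iff]
    refine Measure.integrableOn_of_bounded (M := M) ?_ hgmeas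
      (ae_of_all _ fun θ => hgM _ (hsph θ))
    exact (measure_Ioc_lt_top).ne
  have key : ∀ w ∈ Metric.ball t₀ R,
      (2 * π * I : ℂ)⁻¹ • (∮ z in C(t₀, R), (z - w)⁻¹ • g z) = g w := by
    intro w hw
    have hwV : w ∈ V := hRV (Metric.ball_subset_closedBall hw)
    have hne : ∀ θ, circleMap t₀ R θ - w ≠ 0 := by
      intro θ h0
      have h1 : w = circleMap t₀ R θ := (sub_eq_zero.1 h0).symm
      have h2 := circleMap_mem_sphere t₀ hR.le θ
      rw [← h1, Metric.mem_sphere] at h2
      rw [Metric.mem_ball, h2] at hw
      exact lt_irrefl _ hw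
    have hcinv : Continuous (fun θ => (circleMap t₀ R θ - w)⁻¹) :=
      ((continuous_circleMap _ _).sub continuous_const).inv₀ hne
    have h1 : Tendsto (fun n => ∮ z in C(t₀, R), (z - w)⁻¹ • f n z) atTop
        (𝓝 (∮ z in C(t₀, R), (z - w)⁻¹ • g z)) := by
      unfold circleIntegral
      refine intervalIntegral.tendsto_integral_filter_of_dominated_convergence
        (fun θ => ‖deriv (circleMap t₀ R) θ‖ * (‖(circleMap t₀ R θ - w)⁻¹‖ * M)) ?_ ?_ ?_ ?_
      · refine Eventually.of_forall fun n => Continuous.aestronglyMeasurable ?_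
        have h3 : Continuous (deriv (circleMap t₀ R)) := by
          have : deriv (circleMap t₀ R) = fun θ => circleMap 0 R θ * I :=
            funext fun θ => deriv_circleMap t₀ R θ
          rw [this]
          exact (continuous_circleMap _ _).mul continuous_const
        exact h3.smul (hcinv.smul (hcont n))
      · refine Eventually.of_forall fun n => ae_of_all _ fun θ _ => ?_
        rw [norm_smul, norm_smul]
        gcongr
        exact hM n _ (hsph θ)
      · refine Continuous.intervalIntegrable ?_ _ _
        have h3 : Continuous (deriv (circleMap t₀ R)) := by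
          have : deriv (circleMap t₀ R) = fun θ => circleMap 0 R θ * I :=
            funext fun θ => deriv_circleMap t₀ R θ
          rw [this]
          exact (continuous_circleMap _ _).mul continuous_const
        exact h3.norm.mul (hcinv.norm.mul continuous_const)
      · refine ae_of_all _ fun θ _ => ?_
        exact ((hlim _ (hsph θ)).const_smul _).const_smul _
    have h2 : ∀ n, (∮ z in C(t₀, R), (z - w)⁻¹ • f n z) = (2 * π * I : ℂ) • f n w := fun n =>
      ((hf n).mono hRV).circleIntegral_sub_inv_smul hw
    simp only [h2] at h1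
    have h4 := tendsto_nhds_unique h1 ((hlim w hwV).const_smul (2 * π * I : ℂ))
    rw [h4, inv_smul_smul₀]
    simp [Real.pi_ne_zero, I_ne_zero]
  have hps := hasFPowerSeriesOn_cauchy_integral (f := g) (c := t₀) (R := ⟨R, hR.le⟩) hint hR
  have hd : DifferentiableAt ℂ
      (fun w => (2 * π * I : ℂ)⁻¹ • ∮ z in C(t₀, R), (z - w)⁻¹ • g z) t₀ :=
    hps.analyticAt.differentiableAt
  refine (hd.congr_of_eventuallyEq ?_).differentiableWithinAt
  filter_upwards [Metric.ball_mem_nhds t₀ hR] with w hw
  exact (key w hw).symm

end Pool.Agent.Helper60.QC
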