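import Pool.Agent.Helper68.QC.St1

namespace Pool.Agent.Helper60.QC

open Pool.Agent.Helper68.QC
open MeasureTheory Set Filter Topology Complex
open scoped ContDiff ComplexConjugate ENNReal

theorem pQIN : Pool.Agent.Helper68.QC.StQIN := by
  intro k hk w hw
  have hlt : ∀ z, ‖dzb w z‖ < ‖dz w z‖ := by
    intro z
    have h1 : 0 < ‖dz w z‖ := norm_pos_iff.2 (hw.ne z)
    have h2 := hw.le z
    nlinarith
  have hdet : ∀ z, (fderiv ℝ w z).det ≠ 0 := by
    intro z
    rw [det_fderiv]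
    have h1 := hlt z
    have h2 := norm_nonneg (dzb w z)
    nlinarith
  have hdiff : ∀ z, DifferentiableAt ℝ w z := fun z => hw.smooth.differentiable (by simp) z
  let f' : ℂ → ℂ ≃L[ℝ] ℂ := fun z =>
    ContinuousLinearMap.toContinuousLinearEquivOfDetNeZero (fderiv ℝ w z) (hdet z)
  have hf' : ∀ z, HasFDerivAt w (f' z : ℂ →L[ℝ] ℂ) z := by
    intro z
    have h1 : (f' z : ℂ →L[ℝ] ℂ) = fderiv ℝ w z :=
      ContinuousLinearMap.coe_toContinuousLinearEquivOfDetNeZero _ _
    rw [h1]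
    exact (hdiff z).hasFDerivAt
  have hstrict : ∀ z, HasStrictFDerivAt w (f' z : ℂ →L[ℝ] ℂ) z := fun z =>
    (hw.smooth.contDiffAt).hasStrictFDerivAt' (hf' z) (by simp)
  have hopen : IsOpenMap w := isOpenMap_of_hasStrictFDerivAt_equiv hstrict
  let W : ℂ ≃ₜ ℂ := (Equiv.ofBijective w hw.bij).toHomeomorphOfContinuousOpen
    hw.smooth.continuous hopen
  have hW : ∀ z, W z = w z := fun z => rfl
  have hWw : (W : ℂ → ℂ) = w := funext hW
  have hsm : ContDiff ℝ ∞ (W.symm : ℂ → ℂ) :=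
    W.contDiff_symm (f₀' := f') (fun a => by rw [hWw]; exact hf' a)
      (by rw [hWw]; exact hw.smooth)
  have key : ∀ z, dz W.symm (w z) * dz w z + dzb W.symm (w z) * conj (dzb w z) = 1 ∧
      dz W.symm (w z) * dzb w z + dzb W.symm (w z) * conj (dz w z) = 0 := by
    intro z
    have hd : DifferentiableAt ℝ (W.symm : ℂ → ℂ) (w z) := hsm.differentiable (by simp) _
    have hid : (fun x => W.symm (w x)) = fun x => x := by
      funext x
      rw [← hW x]
      exact W.symm_apply_apply x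
    refine ⟨?_, ?_⟩
    · rw [← dz_comp hd (hdiff z), hid, dz_id]
    · rw [← dzb_comp hd (hdiff z), hid, dzb_id]
  have main : ∀ z, dz W.symm (w z) ≠ 0 ∧
      ‖dzb W.symm (w z)‖ ≤ k * ‖dz W.symm (w z)‖ := by
    intro z
    obtain ⟨h1, h2⟩ := key z
    have ha : 0 < ‖dz w z‖ := norm_pos_iff.2 (hw.ne z)
    have h3 : ‖dzb W.symm (w z)‖ * ‖dz w z‖ = ‖dz W.symm (w z)‖ * ‖dzb w z‖ := by
      have h4 : dzb W.symm (w z) * conj (dz w z) = -(dz W.symm (w z) * dzb w z) := by
        linear_combination h2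
      have h5 := congrArg norm h4
      rw [norm_neg, norm_mul, norm_mul, RCLike.norm_conj] at h5
      exact h5
    refine ⟨?_, ?_⟩
    · intro h0
      rw [h0, norm_zero, zero_mul] at h3
      have h4 : dzb W.symm (w z) = 0 := by
        rcases mul_eq_zero.1 h3 with h | h
        · exact norm_eq_zero.1 h
        · exact absurd h ha.ne'
      rw [h0, h4] at h1
      simp at h1
    · have h4 := hw.le z
      have h5 := norm_nonneg (dz W.symm (w z))
      have h6 : ‖dzb W.symm (w z)‖ * ‖dz w z‖ ≤ k * ‖dz W.symm (w z)‖ * ‖dz w z‖ := by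
        rw [h3]
        nlinarith [mul_le_mul_of_nonneg_left h4 h5]
      exact le_of_mul_le_mul_right h6 ha
  refine ⟨W, hW, hsm, W.symm.bijective, ?_, ?_⟩
  · intro ζ
    have h1 := (main (W.symm ζ)).1
    rwa [← hW, W.apply_symm_apply] at h1
  · intro ζ
    have h1 := (main (W.symm ζ)).2
    rwa [← hW, W.apply_symm_apply] at h1

end Pool.Agent.Helper60.QC
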